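import Mathlib

/-!
An idempotent ultrafilter on a commutative monoid cannot tell `A + j D + B` from
`A + (j+1) D + B` through a function without independent sequences of translates.
-/

set_option autoImplicit false

open Filter

namespace Pool.Agent.Lib.MP_937f58_an

variable {M : Type} [AddCommMonoid M]

/-- `U` is idempotent for the addition of ultrafilters. -/
def Idem (U : Ultrafilter M) : Prop :=
  ∀ p : M → Prop, (∀ᶠ m in (U : Filter M), p m) →
    ∀ᶠ m in (U : Filter M), ∀ᶠ m' in (U : Filter M), p (m + m')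

theorem exists_idem (a : Stream' M) :
    ∃ U : Ultrafilter M, Idem U ∧ ∀ᶠ m in (U : Filter M), m ∈ Hindman.FS a := by
  obtain ⟨U, hU, hF⟩ := Hindman.exists_idempotent_ultrafilter_le_FS a
  refine ⟨U, ?_, hF⟩
  intro p hp
  have := (Ultrafilter.eventually_add U U p).1 (by rw [hU]; exact hp)
  exact this

/-- The tree lemma. -/
theorem tree (U : Ultrafilter M) (hU : Idem U) (S : Finset M → Set M)
    (hS : ∀ X, S X ∈ (U : Filter M)) :
    ∃ (d : ℕ → M) (X : ℕ → Finset M),
      (∀ n (F : Finset ℕ), F.Nonempty → (∀ k ∈ F, k < n) → ∑ k ∈ F, d k ∈ X n) ∧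
      (∀ n (F : Finset ℕ), F.Nonempty → (∀ k ∈ F, n ≤ k) → ∑ k ∈ F, d k ∈ S (X n)) := by
  classical
  have exists_elem : ∀ {s : Set M} (_hs : s ∈ (U : Filter M)),
      (s ∩ {m | ∀ᶠ m' in (U : Filter M), m + m' ∈ s}).Nonempty :=
    fun {s} hs => Filter.nonempty_of_mem (inter_mem hs (hU (· ∈ s) hs))
  let elem : {s // s ∈ (U : Filter M)} → M := fun p => (exists_elem p.property).some
  have helem : ∀ p, elem p ∈ p.val ∧ ∀ᶠ m' in (U : Filter M), elem p + m' ∈ p.val :=
    fun p => (exists_elem p.property).some_mem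
  let nx : Finset M → M → Finset M := fun X m => insert m (X ∪ X.image (· + m))
  let step : Finset M × {s // s ∈ (U : Filter M)} → Finset M × {s // s ∈ (U : Filter M)} :=
    fun q => (nx q.1 (elem q.2),
      ⟨q.2.val ∩ {m | elem q.2 + m ∈ q.2.val} ∩ S (nx q.1 (elem q.2)),
        inter_mem (inter_mem q.2.property (helem q.2).2) (hS _)⟩)
  let st : ℕ → Finset M × {s // s ∈ (U : Filter M)} :=
    fun n => step^[n] (∅, ⟨S ∅, hS _⟩)
  have hst : ∀ n, st (n + 1) = step (st n) := fun n => Function.iterate_succ_apply' _ _ _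
  let d : ℕ → M := fun n => elem (st n).2
  have hW : ∀ n, (st n).2.val ⊆ S (st n).1 := by
    intro n
    cases n with
    | zero => exact subset_rfl
    | succ n => rw [hst]; exact Set.inter_subset_right
  have hanti : ∀ n, (st (n + 1)).2.val ⊆ (st n).2.val := by
    intro n; rw [hst]; exact fun x hx => hx.1.1
  have hanti' : ∀ n m, n ≤ m → (st m).2.val ⊆ (st n).2.val := by
    intro n m hnm
    induction hnm with
    | refl => exact subset_rfl
    | step _ ih => exact (hanti _).trans ih
  have hshift : ∀ n, ∀ x ∈ (st (n + 1)).2.val, d n + x ∈ (st n).2.val := by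
    intro n x hx; rw [hst] at hx; exact hx.1.2
  refine ⟨d, fun n => (st n).1, ?_, ?_⟩
  · intro n
    induction n with
    | zero => intro F hF h; obtain ⟨k, hk⟩ := hF; exact absurd (h k hk) (Nat.not_lt_zero _)
    | succ n ih =>
      intro F hF h
      have hX : (st (n + 1)).1 = nx (st n).1 (d n) := by rw [hst]
      show _ ∈ (st (n + 1)).1
      rw [hX]
      by_cases hn : n ∈ F
      · rw [← Finset.add_sum_erase F d hn]
        by_cases hE : (F.erase n).Nonempty
        · have := ih (F.erase n) hE (fun k hk => by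
            have h1 := h k (Finset.mem_of_mem_erase hk)
            have h2 := Finset.ne_of_mem_erase hk
            omega)
          refine Finset.mem_insert_of_mem (Finset.mem_union_right _ ?_)
          exact Finset.mem_image.2 ⟨_, this, add_comm _ _⟩
        · rw [Finset.not_nonempty_iff_eq_empty.1 hE]
          simp [nx]
      · have := ih F hF (fun k hk => by
          have h1 := h k hk
          have h2 : k ≠ n := fun e => hn (e ▸ hk)
          omega)
        exact Finset.mem_insert_of_mem (Finset.mem_union_left _ this)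
  · have key : ∀ (c : ℕ) (F : Finset ℕ), F.card = c → F.Nonempty → ∀ n, (∀ k ∈ F, n ≤ k) →
        ∑ k ∈ F, d k ∈ (st n).2.val := by
      intro c
      induction c with
      | zero => intro F hc hF; exact absurd (Finset.card_eq_zero.1 hc) hF.ne_empty
      | succ c ih =>
        intro F hc hF n h
        have hm : F.min' hF ∈ F := F.min'_mem hF
        apply hanti' n (F.min' hF) (h _ hm)
        rw [← Finset.add_sum_erase F d hm]
        by_cases hE : (F.erase (F.min' hF)).Nonempty
        · apply hshift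
          apply ih _ (by rw [Finset.card_erase_of_mem hm, hc]; rfl) hE
          intro k hk
          have h1 := F.min'_le k (Finset.mem_of_mem_erase hk)
          have h2 := Finset.ne_of_mem_erase hk
          omega
        · rw [Finset.not_nonempty_iff_eq_empty.1 hE]
          simpa using (helem _).1
    intro n F hF h
    exact hW n (key _ F rfl hF n h)

/-- A Milliken-Taylor type statement for triples. -/
theorem triple (U : Ultrafilter M) (hU : Idem U) (Q : M → M → M → Prop)
    (hQ : ∀ᶠ A in (U : Filter M), ∀ᶠ D in (U : Filter M), ∀ᶠ B in (U : Filter M), Q A D B) :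
    ∃ d : ℕ → M, ∀ (i : ℕ) (F₁ F₂ : Finset ℕ), F₁.Nonempty → F₂.Nonempty →
      (∀ k ∈ F₁, k < i) → (∀ k ∈ F₂, i < k) →
      Q (∑ k ∈ F₁, d k) (d i) (∑ k ∈ F₂, d k) := by
  classical
  let T1 : Set M := {A | ∀ᶠ D in (U : Filter M), ∀ᶠ B in (U : Filter M), Q A D B}
  let T2 : M → Set M := fun A => {D | ∀ᶠ B in (U : Filter M), Q A D B}
  let S : Finset M → Set M := fun X =>
    {m | m ∈ T1 ∧ (∀ A ∈ X, A ∈ T1 → m ∈ T2 A) ∧ ∀ A ∈ X, ∀ D ∈ X, D ∈ T2 A → Q A D m}
  have hS : ∀ X, S X ∈ (U : Filter M) := by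
    intro X
    have h2 : ∀ᶠ m in (U : Filter M), ∀ A ∈ X, A ∈ T1 → m ∈ T2 A := by
      rw [Filter.eventually_all_finset]
      intro A _
      by_cases hA : A ∈ T1
      · filter_upwards [hA] with m hm _ using hm
      · exact Eventually.of_forall fun m h => absurd h hA
    have h3 : ∀ᶠ m in (U : Filter M), ∀ A ∈ X, ∀ D ∈ X, D ∈ T2 A → Q A D m := by
      rw [Filter.eventually_all_finset]
      intro A _
      rw [Filter.eventually_all_finset]
      intro D _
      by_cases hD : D ∈ T2 A
      · filter_upwards [hD] with m hm _ using hm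
      · exact Eventually.of_forall fun m h => absurd h hD
    filter_upwards [hQ, h2, h3] with m a b c using ⟨a, b, c⟩
  obtain ⟨d, X, hX, hF⟩ := tree U hU S hS
  refine ⟨d, fun i F₁ F₂ h1 h2 hl hr => ?_⟩
  have a1 : ∑ k ∈ F₁, d k ∈ T1 := (hF 0 F₁ h1 (fun _ _ => Nat.zero_le _)).1
  have a2 : d i ∈ T2 (∑ k ∈ F₁, d k) := by
    have := (hF i {i} (by simp) (by simp)).2.1 _ (hX i F₁ h1 hl) a1
    simpa using this
  have a3 : d i ∈ X (i + 1) := by
    have := hX (i + 1) {i} (by simp) (by simp)
    simpa using this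
  exact (hF (i + 1) F₂ h2 (fun k hk => hr k hk)).2.2 _
    (hX (i + 1) F₁ h1 (fun k hk => (hl k hk).trans (Nat.lt_succ_self i))) _ a3 a2

/-- The independent sequence. -/
theorem indep (U : Ultrafilter M) (hU : Idem U) (p₀ p₁ : M → Prop) (j : ℕ)
    (h₀ : ∀ᶠ A in (U : Filter M), ∀ᶠ D in (U : Filter M), ∀ᶠ B in (U : Filter M),
      p₀ (A + j • D + B))
    (h₁ : ∀ᶠ A in (U : Filter M), ∀ᶠ D in (U : Filter M), ∀ᶠ B in (U : Filter M),
      p₁ (A + (j + 1) • D + B)) :
    ∃ s : ℕ → M, ∀ P N : Finset ℕ, Disjoint P N →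
      ∃ x : M, (∀ n ∈ P, p₀ (s n + x)) ∧ (∀ n ∈ N, p₁ (s n + x)) := by
  classical
  obtain ⟨d, hd⟩ := triple U hU (fun A D B => p₀ (A + j • D + B) ∧ p₁ (A + (j + 1) • D + B)) (by
    filter_upwards [h₀, h₁] with A a b
    filter_upwards [a, b] with D a b
    filter_upwards [a, b] with B a b using ⟨a, b⟩)
  refine ⟨fun n => j • d (n + 1), fun P N hPN => ?_⟩
  let K : ℕ := (P ∪ N).sup id + 2
  have hK : ∀ n ∈ P ∪ N, n + 1 < K := fun n hn => by
    have : n ≤ (P ∪ N).sup id := Finset.le_sup (f := id) hn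
    omega
  let F : Finset ℕ := insert 0 (insert K (N.image (· + 1)))
  have split : ∀ i : ℕ, ∑ k ∈ F, d k = ∑ k ∈ F.filter (· < i), d k +
      (if i ∈ F then d i else 0) + ∑ k ∈ F.filter (i < ·), d k := by
    intro i
    have e1 : (if i ∈ F then d i else 0) = ∑ k ∈ F.filter (· = i), d k := by
      rw [Finset.sum_filter, Finset.sum_ite_eq']
    rw [e1, Finset.sum_filter, Finset.sum_filter, Finset.sum_filter, ← Finset.sum_add_distrib,
      ← Finset.sum_add_distrib]
    refine Finset.sum_congr rfl fun k _ => ?_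
    rcases lt_trichotomy k i with h | h | h
    · simp [h, h.ne, h.not_gt]
    · simp [h]
    · simp [h, h.ne', h.not_gt]
  have main : ∀ n ∈ P ∪ N,
      p₀ (∑ k ∈ F.filter (· < n + 1), d k + j • d (n + 1) + ∑ k ∈ F.filter (n + 1 < ·), d k) ∧
      p₁ (∑ k ∈ F.filter (· < n + 1), d k + (j + 1) • d (n + 1) +
        ∑ k ∈ F.filter (n + 1 < ·), d k) := by
    intro n hn
    refine hd (n + 1) _ _ ⟨0, by simp [F]⟩ ⟨K, ?_⟩ ?_ ?_
    · simp [F, hK n hn]
    · intro k hk; exact (Finset.mem_filter.1 hk).2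
    · intro k hk; exact (Finset.mem_filter.1 hk).2
  refine ⟨∑ k ∈ F, d k, fun n hn => ?_, fun n hn => ?_⟩
  · have hn' : n ∈ P ∪ N := Finset.mem_union_left _ hn
    have hnot : n + 1 ∉ F := by
      have h1 := hK n hn'
      have h2 : n ∉ N := Finset.disjoint_left.1 hPN hn
      simp only [F, Finset.mem_insert, Finset.mem_image, not_or, not_exists, not_and]
      refine ⟨by omega, by omega, fun x hx e => h2 ?_⟩
      have : x = n := by omega
      exact this ▸ hx
    have := (main n hn').1
    rw [split (n + 1), if_neg hnot]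
    convert this using 1
    abel
  · have hn' : n ∈ P ∪ N := Finset.mem_union_right _ hn
    have hin : n + 1 ∈ F := by
      simp only [F, Finset.mem_insert, Finset.mem_image]
      exact Or.inr (Or.inr ⟨n, hn, rfl⟩)
    have := (main n hn').2
    rw [split (n + 1), if_pos hin]
    convert this using 1
    rw [succ_nsmul]
    abel

end Pool.Agent.Lib.MP_937f58_an
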