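import Mathlib
import Pool.Agent.Lib.MP_937f58_an.Tree

/-!
The additive group of convergent real sequences (sup norm) does not embed in its universal tame
compactification.
-/

set_option autoImplicit false

open Filter Topology

namespace Pool.Agent.Lib.MP_937f58_an

section general

variable {M : Type} [AddCommMonoid M]

/-- The ultrafilter of the points `A + j D + B`. -/
noncomputable def V (U : Ultrafilter M) (j : ℕ) : Ultrafilter M :=
  U.bind fun A => U.bind fun D => U.map fun B => A + j • D + B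

theorem eventually_V (U : Ultrafilter M) (j : ℕ) (p : M → Prop) :
    (∀ᶠ y in (V U j : Filter M), p y) ↔
      ∀ᶠ A in (U : Filter M), ∀ᶠ D in (U : Filter M), ∀ᶠ B in (U : Filter M),
        p (A + j • D + B) := Iff.rfl

/-- No independent sequence of translates. -/
def Tame (f : M → ℝ) : Prop :=
  ¬ ∃ s : ℕ → M, ∃ a b : ℝ, a < b ∧ ∀ P N : Finset ℕ, Disjoint P N →
    ∃ x : M, (∀ n ∈ P, f (s n + x) < a) ∧ (∀ n ∈ N, b < f (s n + x))

theorem lim_succ (U : Ultrafilter M) (hU : Idem U) (f : M → ℝ) (hf : Tame f) (j : ℕ) (t t' : ℝ)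
    (h : Tendsto f (V U j : Filter M) (𝓝 t)) (h' : Tendsto f (V U (j + 1) : Filter M) (𝓝 t')) :
    t = t' := by
  by_contra hne
  apply hf
  rcases lt_or_gt_of_ne hne with hlt | hlt
  · obtain ⟨a, ha, ha'⟩ := exists_between hlt
    obtain ⟨b, hb, hb'⟩ := exists_between ha'
    obtain ⟨s, hs⟩ := indep U hU (fun y => f y < a) (fun y => b < f y) j
      ((eventually_V U j _).1 (h.eventually (gt_mem_nhds ha)))
      ((eventually_V U (j + 1) _).1 (h'.eventually (lt_mem_nhds hb')))
    exact ⟨s, a, b, hb, hs⟩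
  · obtain ⟨a, ha, ha'⟩ := exists_between hlt
    obtain ⟨b, hb, hb'⟩ := exists_between ha'
    obtain ⟨s, hs⟩ := indep U hU (fun y => b < f y) (fun y => f y < a) j
      ((eventually_V U j _).1 (h.eventually (lt_mem_nhds hb')))
      ((eventually_V U (j + 1) _).1 (h'.eventually (gt_mem_nhds ha)))
    refine ⟨s, a, b, hb, fun P N hPN => ?_⟩
    obtain ⟨x, h1, h2⟩ := hs N P hPN.symm
    exact ⟨x, h2, h1⟩

omit [AddCommMonoid M] in
theorem exists_lim (W : Ultrafilter M) (f : M → ℝ) (C : ℝ) (hC : ∀ x, |f x| ≤ C) :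
    ∃ t, Tendsto f (W : Filter M) (𝓝 t) := by
  obtain ⟨t, -, ht⟩ := (isCompact_Icc (a := -C) (b := C)).ultrafilter_le_nhds (W.map f) (by
    rw [le_principal_iff]
    exact Filter.mem_map.2 (Eventually.of_forall fun x => abs_le.1 (hC x)))
  exact ⟨t, ht⟩

theorem common_lim (U : Ultrafilter M) (hU : Idem U) (f : M → ℝ) (hf : Tame f) (C : ℝ)
    (hC : ∀ x, |f x| ≤ C) : ∃ t, ∀ j, Tendsto f (V U j : Filter M) (𝓝 t) := by
  obtain ⟨t, ht⟩ := exists_lim (V U 0) f C hC
  refine ⟨t, fun j => ?_⟩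
  induction j with
  | zero => exact ht
  | succ j ih =>
    obtain ⟨t', ht'⟩ := exists_lim (V U (j + 1)) f C hC
    rw [lim_succ U hU f hf j t t' ih ht']
    exact ht'

end general

/-- If for every `r > 0` a normed group carries an idempotent ultrafilter on the sphere of radius
`r`, then bounded tame functions do not induce its topology. -/
theorem not_inducing {E : Type} [SeminormedAddCommGroup E] [NormedSpace ℝ E] {T : Type} (ev : T → E → ℝ)
    (hb : ∀ f, ∃ C, ∀ x, |ev f x| ≤ C) (ht : ∀ f, Tame (ev f))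
    (hE : ∀ r : ℝ, 0 < r → ∃ U : Ultrafilter E, Idem U ∧ ∀ᶠ x in (U : Filter E), ‖x‖ = r) :
    ¬ IsInducing (fun (x : E) (f : T) => ev f x) := by
  intro h
  set e : E → (T → ℝ) := fun x f => ev f x with he
  have h1 : Metric.ball (0 : E) 1 ∈ 𝓝 (0 : E) := Metric.ball_mem_nhds _ one_pos
  rw [h.nhds_eq_comap, mem_comap] at h1
  obtain ⟨O, hO, hOb⟩ := h1
  obtain ⟨O', hO', hcl, hsub⟩ := exists_mem_nhds_isClosed_subset (interior_mem_nhds.2 hO)
  have h2 : e ⁻¹' O' ∈ 𝓝 (0 : E) := h.continuous.continuousAt hO'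
  obtain ⟨δ, hδ, hball⟩ := Metric.mem_nhds_iff.1 h2
  obtain ⟨U, hU, hn⟩ := hE (δ / 3) (by positivity)
  choose C hC using hb
  choose t htl using fun f => common_lim U hU (ev f) (ht f) (C f) (hC f)
  have hlim : ∀ j, Tendsto e (V U j : Filter E) (𝓝 t) := fun j =>
    tendsto_pi_nhds.2 fun f => htl f j
  have ht0 : t ∈ O' := by
    refine hcl.mem_of_tendsto (hlim 0) ?_
    rw [eventually_V]
    filter_upwards [hn] with A hA
    refine Eventually.of_forall fun D => ?_
    filter_upwards [hn] with B hB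
    apply hball
    rw [mem_ball_zero_iff, zero_nsmul, add_zero]
    calc ‖A + B‖ ≤ ‖A‖ + ‖B‖ := norm_add_le _ _
      _ < δ := by rw [hA, hB]; linarith
  obtain ⟨N, hN⟩ := exists_nat_gt (3 / δ + 2)
  have hev : ∀ᶠ y in (V U N : Filter E), e y ∈ O :=
    (hlim N).eventually (mem_interior_iff_mem_nhds.1 (hsub ht0))
  have hev2 : ∀ᶠ y in (V U N : Filter E), 1 ≤ ‖y‖ := by
    rw [eventually_V]
    filter_upwards [hn] with A hA
    filter_upwards [hn] with D hD
    filter_upwards [hn] with B hB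
    have e1 : N • D = (A + N • D + B) - A - B := by abel
    have e2 : ‖N • D‖ ≤ ‖A + N • D + B‖ + ‖A‖ + ‖B‖ := by
      calc ‖N • D‖ = ‖(A + N • D + B) - A - B‖ := by rw [← e1]
        _ ≤ ‖(A + N • D + B) - A‖ + ‖B‖ := norm_sub_le _ _
        _ ≤ ‖A + N • D + B‖ + ‖A‖ + ‖B‖ := by gcongr; exact norm_sub_le _ _
    rw [← Nat.cast_smul_eq_nsmul ℝ, norm_smul, Real.norm_natCast, hA, hB, hD,
      Nat.cast_smul_eq_nsmul] at e2
    have e3 : (3 / δ + 2) * (δ / 3) = 1 + 2 * (δ / 3) := by field_simp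
    have e4 : (3 / δ + 2) * (δ / 3) ≤ N * (δ / 3) := by gcongr
    linarith
  obtain ⟨y, hy1, hy2⟩ := (hev.and hev2).exists
  have := hOb hy1
  rw [mem_ball_zero_iff] at this
  linarith

/-- The unit vectors of the space of convergent sequences. -/
noncomputable def unitVec (r : ℝ) (i : ℕ) : C(OnePoint ℕ, ℝ) :=
  OnePoint.continuousMapMkNat (fun k => if k = i then r else 0) 0 (by
    refine tendsto_const_nhds.congr' ?_
    filter_upwards [eventually_gt_atTop i] with k hk
    rw [if_neg hk.ne'])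

theorem unitVec_coe (r : ℝ) (i k : ℕ) :
    unitVec r i (k : OnePoint ℕ) = if k = i then r else 0 := rfl

theorem unitVec_infty (r : ℝ) (i : ℕ) : unitVec r i OnePoint.infty = 0 := rfl

theorem FS_shape (r : ℝ) (a : Stream' C(OnePoint ℕ, ℝ)) (x : C(OnePoint ℕ, ℝ))
    (hx : x ∈ Hindman.FS a) : ∀ n : ℕ, (∀ i, a.get i = unitVec r (n + i)) →
      x OnePoint.infty = 0 ∧ (∀ k : ℕ, x (k : OnePoint ℕ) = 0 ∨ x (k : OnePoint ℕ) = r) ∧
      (∃ k : ℕ, x (k : OnePoint ℕ) = r) ∧ ∀ k : ℕ, k < n → x (k : OnePoint ℕ) = 0 := by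
  induction hx with
  | head' a =>
    intro n h
    have : a.head = unitVec r n := h 0
    rw [this]
    refine ⟨rfl, fun k => ?_, ⟨n, by simp [unitVec_coe]⟩, fun k hk => ?_⟩
    · rw [unitVec_coe]; split_ifs <;> simp
    · rw [unitVec_coe, if_neg hk.ne]
  | tail' a m _ ih =>
    intro n h
    obtain ⟨h1, h2, h3, h4⟩ := ih (n + 1) (fun i => by
      have := h (i + 1)
      rw [show n + 1 + i = n + (i + 1) by ring]
      exact this)
    exact ⟨h1, h2, h3, fun k hk => h4 k (by omega)⟩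
  | cons' a m _ ih =>
    intro n h
    obtain ⟨h1, h2, ⟨k₀, h3⟩, h4⟩ := ih (n + 1) (fun i => by
      have := h (i + 1)
      rw [show n + 1 + i = n + (i + 1) by ring]
      exact this)
    have : a.head = unitVec r n := h 0
    rw [this]
    refine ⟨by simp [unitVec_infty, h1], fun k => ?_, ⟨n, ?_⟩, fun k hk => ?_⟩
    · rw [ContinuousMap.add_apply, unitVec_coe]
      split_ifs with hk
      · right; rw [h4 k (by omega), add_zero]
      · simpa using h2 k
    · rw [ContinuousMap.add_apply, unitVec_coe, if_pos rfl, h4 n (by omega), add_zero]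
    · rw [ContinuousMap.add_apply, unitVec_coe, if_neg hk.ne, h4 k (by omega), add_zero]

theorem exists_sphere (r : ℝ) (hr : 0 < r) :
    ∃ U : Ultrafilter C(OnePoint ℕ, ℝ), Idem U ∧
      ∀ᶠ x in (U : Filter C(OnePoint ℕ, ℝ)), ‖x‖ = r := by
  obtain ⟨U, hU, hF⟩ := exists_idem (M := C(OnePoint ℕ, ℝ)) (fun i => unitVec r i)
  refine ⟨U, hU, ?_⟩
  filter_upwards [hF] with x hx
  obtain ⟨h1, h2, ⟨k₀, h3⟩, -⟩ := FS_shape r _ x hx 0 (fun i => by rw [zero_add]; rfl)
  apply le_antisymm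
  · rw [ContinuousMap.norm_le _ hr.le]
    intro k
    induction k using OnePoint.rec with
    | infty => rw [h1]; simpa using hr.le
    | coe k =>
      rcases h2 k with h | h <;> rw [h]
      · simpa using hr.le
      · simp [abs_of_pos hr]
  · have := x.norm_coe_le_norm (k₀ : OnePoint ℕ)
    rw [h3, Real.norm_eq_abs, abs_of_pos hr] at this
    exact this

theorem polish : PolishSpace C(OnePoint ℕ, ℝ) := inferInstance

end Pool.Agent.Lib.MP_937f58_an
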