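import Mathlib
import Pool.Agent.Lib.MP_937f58_an.Main

/-!
A nontrivial Polish group on which every bounded right uniformly continuous function without an
independent sequence of translates is constant.
-/

set_option autoImplicit false
set_option linter.unusedSectionVars false

open Filter Topology

namespace Pool.Agent.Lib.MP_937f58_an

/-- If the conjugates of `h` by far away elements of `E` tend to the identity, a tame function
does not see `h`. -/
theorem fix_of_conj {E : Type} [SeminormedAddCommGroup E] [NormedSpace ℝ E] {G : Type} [Group G]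
    [TopologicalSpace G]
    (hE : ∀ r : ℝ, 0 < r → ∃ U : Ultrafilter E, Idem U ∧ ∀ᶠ x in (U : Filter E), ‖x‖ = r)
    (ι : E → G) (hadd : ∀ x y, ι (x + y) = ι x * ι y) (hc : Tendsto ι (𝓝 0) (𝓝 1))
    (h : G) (hh : ∀ W ∈ 𝓝 (1 : G), ∃ R : ℝ, ∀ y, R ≤ ‖y‖ → ι y * h * (ι y)⁻¹ ∈ W)
    (f : G → ℝ) (C : ℝ) (hC : ∀ x, |f x| ≤ C)
    (huc : ∀ ε : ℝ, 0 < ε → ∃ W ∈ 𝓝 (1 : G), ∀ v ∈ W, ∀ x, |f (v * x) - f x| < ε)
    (ht : ¬ ∃ s : ℕ → G, ∃ a b : ℝ, a < b ∧ ∀ P N : Finset ℕ, Disjoint P N →
      ∃ x : G, (∀ n ∈ P, f (s n * x) < a) ∧ (∀ n ∈ N, b < f (s n * x))) (x : G) :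
    f (h * x) = f x := by
  have tame : ∀ z : G, Tame (fun m : E => f (ι m * z)) := by
    rintro z ⟨s, a, b, hab, hs⟩
    refine ht ⟨fun n => ι (s n), a, b, hab, fun P N hPN => ?_⟩
    obtain ⟨y, h1, h2⟩ := hs P N hPN
    refine ⟨ι y * z, fun n hn => ?_, fun n hn => ?_⟩
    · have := h1 n hn
      simp only [hadd, mul_assoc] at this
      exact this
    · have := h2 n hn
      simp only [hadd, mul_assoc] at this
      exact this
  have key : ∀ ε : ℝ, 0 < ε → |f (h * x) - f x| ≤ 3 * ε := by
    intro ε hε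
    obtain ⟨W, hW, hWf⟩ := huc ε hε
    obtain ⟨δ, hδ, hball⟩ := Metric.mem_nhds_iff.1 (hc hW)
    obtain ⟨R, hR⟩ := hh W hW
    obtain ⟨U, hU, hn⟩ := hE (δ / 3) (by positivity)
    obtain ⟨t₁, h₁⟩ := common_lim U hU _ (tame (h * x)) C (fun m => hC _)
    obtain ⟨t₂, h₂⟩ := common_lim U hU _ (tame x) C (fun m => hC _)
    have small : ∀ᶠ y in (V U 0 : Filter E), ι y ∈ W := by
      rw [eventually_V]
      filter_upwards [hn] with A hA
      refine Eventually.of_forall fun D => ?_
      filter_upwards [hn] with B hB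
      apply hball
      rw [mem_ball_zero_iff, zero_nsmul, add_zero]
      calc ‖A + B‖ ≤ ‖A‖ + ‖B‖ := norm_add_le _ _
        _ < δ := by rw [hA, hB]; linarith
    have near : ∀ (z : G) (t : ℝ), Tendsto (fun m : E => f (ι m * z)) (V U 0 : Filter E) (𝓝 t) →
        |t - f z| ≤ ε := by
      intro z t hz
      refine le_of_tendsto ((hz.sub_const (f z)).abs) ?_
      filter_upwards [small] with y hy using (hWf _ hy z).le
    obtain ⟨N, hN⟩ := exists_nat_gt (3 * R / δ + 2)
    have big : ∀ᶠ y in (V U N : Filter E), R ≤ ‖y‖ := by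
      rw [eventually_V]
      filter_upwards [hn] with A hA
      filter_upwards [hn] with D hD
      filter_upwards [hn] with B hB
      have e1 : N • D = (A + N • D + B) - A - B := by abel
      have e2 : ‖N • D‖ ≤ ‖A + N • D + B‖ + ‖A‖ + ‖B‖ := by
        calc ‖N • D‖ = ‖(A + N • D + B) - A - B‖ := by rw [← e1]
          _ ≤ ‖(A + N • D + B) - A‖ + ‖B‖ := norm_sub_le _ _
          _ ≤ ‖A + N • D + B‖ + ‖A‖ + ‖B‖ := by gcongr; exact norm_sub_le _ _
      rw [← Nat.cast_smul_eq_nsmul ℝ, norm_smul, Real.norm_natCast, hA, hB, hD,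
        Nat.cast_smul_eq_nsmul] at e2
      have e3 : (3 * R / δ + 2) * (δ / 3) = R + 2 * (δ / 3) := by field_simp
      have e4 : (3 * R / δ + 2) * (δ / 3) ≤ N * (δ / 3) := by gcongr
      linarith
    have mid : |t₁ - t₂| ≤ ε := by
      refine le_of_tendsto (((h₁ N).sub (h₂ N)).abs) ?_
      filter_upwards [big] with y hy
      have := hWf _ (hR y hy) (ι y * x)
      rw [show ι y * h * (ι y)⁻¹ * (ι y * x) = ι y * (h * x) by group] at this
      exact this.le
    have a1 := abs_le.1 (near _ _ (h₁ 0))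
    have a2 := abs_le.1 (near _ _ (h₂ 0))
    have a3 := abs_le.1 mid
    rw [abs_le]
    constructor <;> linarith [a1.1, a1.2, a2.1, a2.2, a3.1, a3.2]
  have : |f (h * x) - f x| ≤ 0 := by
    refine le_of_forall_pos_le_add fun ε hε => ?_
    have := key (ε / 3) (by positivity)
    linarith
  exact sub_eq_zero.1 (abs_nonpos_iff.1 this)

/-- The monoid of continuous self-maps under composition. -/
def End (K : Type) [TopologicalSpace K] : Type := C(K, K)

section monoid

variable {K : Type} [MetricSpace K] [CompactSpace K]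

instance : Monoid (End K) where
  mul f g := ContinuousMap.comp f g
  one := ContinuousMap.id K
  mul_assoc _ _ _ := rfl
  one_mul _ := rfl
  mul_one _ := rfl

noncomputable instance : MetricSpace (End K) := inferInstanceAs (MetricSpace C(K, K))

/-- Evaluation. -/
def End.ev (f : End K) (w : K) : K := (show C(K, K) from f) w

theorem End.ev_mul (f g : End K) (w : K) : (f * g).ev w = f.ev (g.ev w) := rfl

theorem End.ev_one (w : K) : (1 : End K).ev w = w := rfl

theorem End.ext' {f g : End K} (h : ∀ w, f.ev w = g.ev w) : f = g := ContinuousMap.ext h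

theorem End.dist_le {f g : End K} {c : ℝ} (hc : 0 ≤ c) :
    dist f g ≤ c ↔ ∀ w, dist (f.ev w) (g.ev w) ≤ c := ContinuousMap.dist_le hc

instance : ContinuousMul (End K) :=
  ⟨(ContinuousMap.continuous_comp' (X := K) (Y := K) (Z := K)).comp continuous_swap⟩

instance : PolishSpace (End K) := inferInstanceAs (PolishSpace C(K, K))

instance : PolishSpace (End K)ᵐᵒᵖ :=
  (MulOpposite.opHomeomorph (M := End K)).symm.isClosedEmbedding.polishSpace

instance : PolishSpace (End K)ˣ := Units.isClosedEmbedding_embedProduct.polishSpace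

theorem tendsto_units {I : Type} {l : Filter I} {u : I → (End K)ˣ} {g : (End K)ˣ}
    (h : Tendsto (fun i => (u i : End K)) l (𝓝 (g : End K))) : Tendsto u l (𝓝 g) := by
  rw [Units.isInducing_embedProduct.tendsto_nhds_iff]
  refine Tendsto.prodMk_nhds h ?_
  refine (MulOpposite.continuous_op.tendsto _).comp (f := fun i => ((u i)⁻¹ : (End K)ˣ).val) ?_
  have h2 : Tendsto (fun i => (g⁻¹ : (End K)ˣ).val * (u i : End K)) l (𝓝 1) := by
    have := h.const_mul (g⁻¹ : (End K)ˣ).val
    rwa [Units.inv_mul] at this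
  rw [Metric.tendsto_nhds] at h2 ⊢
  intro ε hε
  filter_upwards [h2 ε hε] with i hi
  refine lt_of_le_of_lt ?_ hi
  rw [End.dist_le dist_nonneg]
  intro v
  have := (End.dist_le dist_nonneg).1
    (le_refl (dist ((g⁻¹ : (End K)ˣ).val * (u i : End K)) 1)) (((u i)⁻¹ : (End K)ˣ).val.ev v)
  rw [← End.ev_mul, mul_assoc, Units.mul_inv, mul_one, End.ev_one, dist_comm] at this
  exact this

/-- A continuous bijection of a compact space as a unit. -/
noncomputable def unitOf (φ : K → K) (hc : Continuous φ) (hb : Function.Bijective φ) :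
    (End K)ˣ where
  val := (⟨φ, hc⟩ : C(K, K))
  inv := (⟨(Continuous.homeoOfEquivCompactToT2 (f := Equiv.ofBijective φ hb) hc).symm,
    (Continuous.homeoOfEquivCompactToT2 (f := Equiv.ofBijective φ hb) hc).symm.continuous⟩ :
      C(K, K))
  val_inv := End.ext' fun w => (Equiv.ofBijective φ hb).apply_symm_apply w
  inv_val := End.ext' fun w => (Equiv.ofBijective φ hb).symm_apply_apply w

theorem unitOf_ev (φ : K → K) (hc : Continuous φ) (hb : Function.Bijective φ) (w : K) :
    (unitOf φ hc hb : End K).ev w = φ w := rfl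

end monoid

section space

variable (E : Type) [NormedAddCommGroup E]

/-- The functions `exp (-z)` with `z` a Katetov function on `E`, together with `0`. -/
def KS : Set (E → ℝ) :=
  {w | (∀ x, 0 ≤ w x) ∧ (∀ x y, w y * Real.exp (-‖x - y‖) ≤ w x) ∧
    ∀ x y, w x * w y ≤ Real.exp (-‖x - y‖)}

/-- The compact space on which the group acts. -/
def Kat : Type := KS E

instance : TopologicalSpace (Kat E) := inferInstanceAs (TopologicalSpace (KS E))

variable {E}

/-- The underlying function. -/
def Kat.fn (w : Kat E) : E → ℝ := (show KS E from w).1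

theorem Kat.ext' {w v : Kat E} (h : ∀ x, w.fn x = v.fn x) : w = v := Subtype.ext (funext h)

theorem Kat.nonneg (w : Kat E) (x : E) : 0 ≤ w.fn x := (show KS E from w).2.1 x

theorem Kat.lower (w : Kat E) (x y : E) : w.fn y * Real.exp (-‖x - y‖) ≤ w.fn x :=
  (show KS E from w).2.2.1 x y

theorem Kat.upper (w : Kat E) (x y : E) : w.fn x * w.fn y ≤ Real.exp (-‖x - y‖) :=
  (show KS E from w).2.2.2 x y

theorem Kat.le_one (w : Kat E) (x : E) : w.fn x ≤ 1 := by
  have h := w.upper x x
  rw [sub_self, norm_zero, neg_zero, Real.exp_zero] at h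
  nlinarith [w.nonneg x]

theorem Kat.le_mul (w : Kat E) (x y : E) : w.fn y ≤ w.fn x * Real.exp ‖x - y‖ := by
  have h := mul_le_mul_of_nonneg_right (w.lower x y) (Real.exp_pos ‖x - y‖).le
  rwa [mul_assoc, ← Real.exp_add, neg_add_cancel, Real.exp_zero, mul_one] at h

theorem Kat.sub_le (w : Kat E) (x y : E) : w.fn y - w.fn x ≤ ‖x - y‖ := by
  have h1 := w.lower x y
  have h2 := Real.add_one_le_exp (-‖x - y‖)
  have h3 := w.le_one y
  have h4 := w.nonneg y
  have h5 := norm_nonneg (x - y)
  nlinarith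

theorem Kat.continuous_fn (x : E) : Continuous fun w : Kat E => w.fn x :=
  (continuous_apply x).comp continuous_subtype_val

theorem Kat.continuous_iff {Y : Type} [TopologicalSpace Y] {φ : Y → Kat E}
    (h : ∀ x, Continuous fun y => (φ y).fn x) : Continuous φ :=
  continuous_induced_rng.2 (continuous_pi h)

theorem isCompact_KS : IsCompact (KS E) := by
  have hc : IsClosed (KS E) := by
    have e : KS E = (⋂ x, {w : E → ℝ | 0 ≤ w x}) ∩
        ((⋂ x, ⋂ y, {w : E → ℝ | w y * Real.exp (-‖x - y‖) ≤ w x}) ∩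
          ⋂ x, ⋂ y, {w : E → ℝ | w x * w y ≤ Real.exp (-‖x - y‖)}) := by
      ext w
      simp [KS]
    rw [e]
    refine (isClosed_iInter fun x => isClosed_le continuous_const (continuous_apply x)).inter
      (IsClosed.inter ?_ ?_)
    · exact isClosed_iInter fun x => isClosed_iInter fun y =>
        isClosed_le ((continuous_apply y).mul continuous_const) (continuous_apply x)
    · exact isClosed_iInter fun x => isClosed_iInter fun y =>
        isClosed_le ((continuous_apply x).mul (continuous_apply y)) continuous_const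
  refine (isCompact_univ_pi fun _ : E => isCompact_Icc (a := (0 : ℝ)) (b := 1)).of_isClosed_subset
    hc ?_
  intro w hw x _
  exact ⟨Kat.nonneg (⟨w, hw⟩ : KS E) x, Kat.le_one (⟨w, hw⟩ : KS E) x⟩

instance : CompactSpace (Kat E) := isCompact_iff_compactSpace.1 isCompact_KS

theorem Kat.continuous_self (w : Kat E) : Continuous w.fn := by
  refine (LipschitzWith.of_dist_le_mul (K := 1) fun x y => ?_).continuous
  rw [Real.dist_eq, dist_eq_norm, NNReal.coe_one, one_mul, abs_le]
  constructor
  · linarith [w.sub_le x y]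
  · have := w.sub_le y x
    rw [norm_sub_rev] at this
    linarith

instance [TopologicalSpace.SeparableSpace E] : TopologicalSpace.MetrizableSpace (Kat E) := by
  have hc : Continuous fun (w : Kat E) (n : ℕ) => w.fn (TopologicalSpace.denseSeq E n) :=
    continuous_pi fun n => Kat.continuous_fn _
  have hi : Function.Injective
      fun (w : Kat E) (n : ℕ) => w.fn (TopologicalSpace.denseSeq E n) := by
    intro w v h
    have : w.fn = v.fn := (TopologicalSpace.denseRange_denseSeq E).equalizer w.continuous_self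
      v.continuous_self h
    exact Kat.ext' fun x => congrFun this x
  exact (hc.isClosedEmbedding hi).isEmbedding.metrizableSpace

noncomputable instance [TopologicalSpace.SeparableSpace E] : MetricSpace (Kat E) :=
  TopologicalSpace.metrizableSpaceMetric (Kat E)

/-- The point at infinity. -/
def Kat.zero : Kat E :=
  (⟨fun _ => 0, fun _ => le_rfl, fun _ _ => by simp, fun _ _ => by simpa using (Real.exp_pos _).le⟩ :
    KS E)

/-- The base point. -/
noncomputable def Kat.base : Kat E :=
  (⟨fun x => Real.exp (-‖x‖), fun _ => (Real.exp_pos _).le, fun x y => by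
      rw [← Real.exp_add, Real.exp_le_exp]
      have := norm_add_le (x - y) y
      rw [sub_add_cancel] at this
      linarith,
    fun x y => by
      rw [← Real.exp_add, Real.exp_le_exp]
      linarith [norm_sub_le x y]⟩ : KS E)

/-- Translation. -/
def Kat.act (a : E) (w : Kat E) : Kat E :=
  (⟨fun x => w.fn (x - a), fun _ => w.nonneg _, fun x y => by
      have := w.lower (x - a) (y - a)
      rwa [sub_sub_sub_cancel_right] at this,
    fun x y => by
      have := w.upper (x - a) (y - a)
      rwa [sub_sub_sub_cancel_right] at this⟩ : KS E)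

theorem Kat.act_fn (a : E) (w : Kat E) (x : E) : (Kat.act a w).fn x = w.fn (x - a) := rfl

theorem Kat.act_add (a b : E) (w : Kat E) : Kat.act (a + b) w = Kat.act a (Kat.act b w) :=
  Kat.ext' fun x => by simp only [Kat.act_fn, sub_sub]

theorem Kat.act_zero (w : Kat E) : Kat.act 0 w = w :=
  Kat.ext' fun x => by simp only [Kat.act_fn, sub_zero]

theorem Kat.continuous_act : Continuous fun p : E × Kat E => Kat.act p.1 p.2 := by
  refine Kat.continuous_iff fun x => ?_
  refine continuous_prod_of_continuous_lipschitzWith (fun p : E × Kat E => p.2.fn (x - p.1)) 1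
    (fun a => Kat.continuous_fn (x - a)) (fun w => LipschitzWith.of_dist_le_mul fun a b => ?_)
  rw [Real.dist_eq, dist_eq_norm, NNReal.coe_one, one_mul, abs_le]
  have h1 := w.sub_le (x - a) (x - b)
  have h2 := w.sub_le (x - b) (x - a)
  rw [sub_sub_sub_cancel_left] at h1 h2
  rw [norm_sub_rev] at h1
  constructor <;> linarith

theorem Kat.act_zero_le (a : E) (w : Kat E) : (Kat.act a w).fn 0 ≤ w.fn 0 * Real.exp ‖a‖ := by
  have := w.le_mul 0 (0 - a)
  rwa [sub_sub_cancel] at this

variable [TopologicalSpace.SeparableSpace E]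

theorem Kat.near_zero (ε : ℝ) (hε : 0 < ε) :
    ∃ δ : ℝ, 0 < δ ∧ ∀ w : Kat E, w.fn 0 ≤ δ → dist w Kat.zero < ε := by
  have hK : IsCompact {w : Kat E | ε ≤ dist w Kat.zero} :=
    (isClosed_le continuous_const (continuous_id.dist continuous_const)).isCompact
  obtain ⟨d, hd, h⟩ := hK.exists_forall_le' (f := fun w => w.fn 0) (a := 0)
    (Kat.continuous_fn 0).continuousOn (by
      intro w hw
      refine lt_of_le_of_ne (w.nonneg 0) fun h0 => ?_
      have : w = Kat.zero := Kat.ext' fun x => by
        have := w.le_mul 0 x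
        rw [← h0, zero_mul] at this
        exact le_antisymm this (w.nonneg x)
      rw [this, Set.mem_ofPred_eq, dist_self] at hw
      linarith)
  refine ⟨d / 2, by positivity, fun w hw => ?_⟩
  by_contra hcon
  have := h w (not_lt.1 hcon)
  linarith

theorem Kat.tendsto_of {I : Type} {l : Filter I} {u : I → (End (Kat E))ˣ} {g : (End (Kat E))ˣ}
    (H : ∀ δ : ℝ, 0 < δ → ∀ᶠ i in l, ∀ w, (u i).val.ev w = g.val.ev w ∨
      (((u i).val.ev w).fn 0 ≤ δ ∧ (g.val.ev w).fn 0 ≤ δ)) : Tendsto u l (𝓝 g) := by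
  refine tendsto_units ?_
  rw [Metric.tendsto_nhds]
  intro ε hε
  obtain ⟨δ, hδ, h⟩ := Kat.near_zero (E := E) (ε / 4) (by positivity)
  filter_upwards [H δ hδ] with i hi
  refine lt_of_le_of_lt ((End.dist_le (c := ε / 2) (by positivity)).2 fun w => ?_) (by linarith)
  rcases hi w with e | ⟨e1, e2⟩
  · rw [e, dist_self]; positivity
  · linarith [dist_triangle_right ((u i).val.ev w) (g.val.ev w) Kat.zero, h _ e1, h _ e2]

/-- Translations as units. -/
noncomputable def tr (a : E) : (End (Kat E))ˣ :=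
  unitOf (Kat.act a) (Kat.continuous_act.comp (Continuous.prodMk_right a))
    (Function.bijective_iff_has_inverse.2 ⟨Kat.act (-a),
      fun w => by rw [← Kat.act_add, neg_add_cancel, Kat.act_zero],
      fun w => by rw [← Kat.act_add, add_neg_cancel, Kat.act_zero]⟩)

theorem tr_ev (a : E) (w : Kat E) : (tr a).val.ev w = Kat.act a w := rfl

theorem tr_add (a b : E) : tr (a + b) = tr a * tr b :=
  Units.ext (End.ext' fun w => Kat.act_add a b w)

theorem tr_zero : tr (0 : E) = 1 := Units.ext (End.ext' fun w => Kat.act_zero w)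

theorem tr_inv (a : E) : (tr a)⁻¹ = tr (-a) := by
  rw [inv_eq_iff_mul_eq_one, ← tr_add, add_neg_cancel, tr_zero]

theorem tendsto_tr : Tendsto (tr : E → (End (Kat E))ˣ) (𝓝 0) (𝓝 1) := by
  refine tendsto_units ?_
  have hc : Continuous fun a : E => (tr a).val :=
    (ContinuousMap.curry (⟨_, Kat.continuous_act⟩ : C(E × Kat E, Kat E))).continuous
  have := hc.tendsto 0
  rwa [tr_zero] at this

variable (E)

/-- The homeomorphisms that are the identity near the point at infinity. -/
def Hc : Subgroup (End (Kat E))ˣ where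
  carrier := {u | ∃ δ : ℝ, 0 < δ ∧ ∀ w : Kat E, w.fn 0 ≤ δ → u.val.ev w = w}
  one_mem' := ⟨1, one_pos, fun _ _ => rfl⟩
  mul_mem' := by
    rintro u v ⟨δ, hδ, hu⟩ ⟨δ', hδ', hv⟩
    refine ⟨min δ δ', lt_min hδ hδ', fun w hw => ?_⟩
    rw [Units.val_mul, End.ev_mul, hv w (hw.trans (min_le_right _ _)),
      hu w (hw.trans (min_le_left _ _))]
  inv_mem' := by
    rintro u ⟨δ, hδ, hu⟩
    refine ⟨δ, hδ, fun w hw => ?_⟩
    conv_lhs => rw [← hu w hw]
    rw [← End.ev_mul, Units.inv_mul, End.ev_one]

variable {E}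

theorem tendsto_conj {h : (End (Kat E))ˣ} (hh : h ∈ Hc E) :
    Tendsto (fun y : E => tr y * h * (tr y)⁻¹) (comap norm atTop) (𝓝 1) := by
  obtain ⟨d, hd, hfix⟩ := hh
  refine Kat.tendsto_of fun δ hδ => ?_
  have h1 : ∀ᶠ t : ℝ in atTop, Real.exp (-t) < d * δ :=
    Real.tendsto_exp_neg_atTop_nhds_zero.eventually (gt_mem_nhds (by positivity))
  filter_upwards [(tendsto_comap (f := (norm : E → ℝ))).eventually h1] with y hy w
  have small : ∀ v : Kat E, d < v.fn y → v.fn 0 ≤ δ := by
    intro v hv
    have := v.upper y 0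
    rw [sub_zero] at this
    by_contra hcon
    have h2 := not_le.1 hcon
    nlinarith [mul_lt_mul'' hv h2 hd.le hδ.le]
  have ev : (tr y * h * (tr y)⁻¹).val.ev w = Kat.act y (h.val.ev (Kat.act (-y) w)) := by
    rw [tr_inv]; rfl
  by_cases hw : (Kat.act (-y) w).fn 0 ≤ d
  · left
    rw [ev, hfix _ hw, ← Kat.act_add, add_neg_cancel, Kat.act_zero]
    rfl
  · right
    refine ⟨small _ ?_, small w ?_⟩
    · rw [ev, Kat.act_fn, sub_self]
      by_contra hcon
      have h3 := hfix _ (not_lt.1 hcon)
      have h4 := congrArg (h⁻¹).val.ev h3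
      rw [← End.ev_mul, ← End.ev_mul, ← End.ev_mul, Units.inv_mul, one_mul, End.ev_one] at h4
      rw [h4] at hcon
      exact hw (not_lt.1 hcon)
    · have := not_le.1 hw
      rwa [Kat.act_fn, zero_sub, neg_neg] at this

/-- The speed of the time change. -/
noncomputable def speed (c t : ℝ) (w : Kat E) : ℝ :=
  min 1 (c * (Real.log (max (w.fn 0) (Real.exp (-t))) + t))

theorem continuous_speed (c t : ℝ) : Continuous (speed c t : Kat E → ℝ) := by
  refine continuous_const.min (continuous_const.mul (Continuous.add ?_ continuous_const))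
  refine ((Kat.continuous_fn 0).max continuous_const).log fun w => ?_
  exact (lt_max_of_lt_right (Real.exp_pos _)).ne'

theorem speed_nonneg {c : ℝ} (hc : 0 ≤ c) (t : ℝ) (w : Kat E) : 0 ≤ speed c t w := by
  refine le_min zero_le_one (mul_nonneg hc ?_)
  have := Real.log_le_log (Real.exp_pos (-t)) (le_max_right (w.fn 0) (Real.exp (-t)))
  rw [Real.log_exp] at this
  linarith

theorem speed_le_one (c t : ℝ) (w : Kat E) : speed c t w ≤ 1 := min_le_left _ _

theorem speed_zero (c t : ℝ) (w : Kat E) (hw : w.fn 0 ≤ Real.exp (-t)) : speed c t w = 0 := by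
  rw [speed, max_eq_right hw, Real.log_exp]
  simp

theorem speed_one {c : ℝ} (hc : 0 < c) (t : ℝ) (w : Kat E)
    (hw : Real.exp (1 / c - t) ≤ w.fn 0) : speed c t w = 1 := by
  refine min_eq_left ?_
  have h1 := Real.log_le_log (Real.exp_pos _) (hw.trans (le_max_left _ (Real.exp (-t))))
  rw [Real.log_exp] at h1
  have h2 : c * (1 / c) = 1 := by field_simp
  nlinarith

theorem log_max_le (w : Kat E) (d : ℝ) (hd : 0 < d) (x y : E) :
    Real.log (max (w.fn y) d) ≤ Real.log (max (w.fn x) d) + ‖x - y‖ := by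
  have h0 : 0 < max (w.fn x) d := lt_max_of_lt_right hd
  have h1 : 1 ≤ Real.exp ‖x - y‖ := Real.one_le_exp (norm_nonneg _)
  have h2 : max (w.fn y) d ≤ max (w.fn x) d * Real.exp ‖x - y‖ := by
    refine max_le ((w.le_mul x y).trans ?_) ?_
    · exact mul_le_mul_of_nonneg_right (le_max_left _ _) (by linarith)
    · nlinarith [le_max_right (w.fn x) d]
  have h3 := Real.log_le_log (lt_max_of_lt_right hd) h2
  rwa [Real.log_mul h0.ne' (Real.exp_pos _).ne', Real.log_exp] at h3

theorem speed_lip {c : ℝ} (hc : 0 ≤ c) (t : ℝ) (w : Kat E) (b : E) :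
    |speed c t (Kat.act b w) - speed c t w| ≤ c * ‖b‖ := by
  have h1 := log_max_le w _ (Real.exp_pos (-t)) 0 (0 - b)
  have h2 := log_max_le w _ (Real.exp_pos (-t)) (0 - b) 0
  rw [sub_sub_cancel] at h1
  rw [show ‖0 - b - 0‖ = ‖b‖ by simp] at h2
  refine (abs_min_sub_min_le_max _ _ _ _).trans (max_le ?_ ?_)
  · rw [sub_self, abs_zero]; positivity
  · rw [← mul_sub, abs_mul, abs_of_nonneg hc, Kat.act_fn]
    refine mul_le_mul_of_nonneg_left (abs_le.2 ⟨by linarith, by linarith⟩) hc

variable [NormedSpace ℝ E]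

theorem tr_mem (a : E) : tr a ∈ (Hc E).topologicalClosure := by
  set c : ℝ := 1 / (2 * (‖a‖ + 1)) with hcdef
  have hc : 0 < c := by positivity
  have hca : c * ‖a‖ ≤ 1 / 2 := by
    rw [hcdef, div_mul_eq_mul_div, div_le_div_iff₀ (by positivity) (by positivity)]
    linarith
  let φ : ℝ → Kat E → Kat E := fun t w => Kat.act (speed c t w • a) w
  have hcont : ∀ t, Continuous (φ t) := fun t =>
    Kat.continuous_act.comp (((continuous_speed c t).smul continuous_const).prodMk continuous_id)
  have hbij : ∀ t, Function.Bijective (φ t) := by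
    intro t
    constructor
    · intro w v h
      have e : v = Kat.act ((speed c t w - speed c t v) • a) w := by
        have := congrArg (Kat.act (-(speed c t v • a))) h
        simp only [φ] at this
        rw [← Kat.act_add, ← Kat.act_add, neg_add_cancel, Kat.act_zero] at this
        rw [sub_smul, sub_eq_neg_add]
        exact this.symm
      have h1 := speed_lip hc.le t w ((speed c t w - speed c t v) • a)
      rw [← e, norm_smul, Real.norm_eq_abs, abs_sub_comm] at h1
      have h2 : |speed c t w - speed c t v| = 0 := by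
        nlinarith [abs_nonneg (speed c t w - speed c t v)]
      rw [e, abs_eq_zero.1 h2, zero_smul, Kat.act_zero]
    · intro v
      have hg : Continuous fun s : ℝ => s - speed c t (Kat.act (-(s • a)) v) :=
        continuous_id.sub ((continuous_speed c t).comp (Kat.continuous_act.comp
          ((continuous_id.smul continuous_const).neg.prodMk continuous_const)))
      obtain ⟨s, -, hs⟩ := intermediate_value_Icc (zero_le_one' ℝ) hg.continuousOn
        (show (0 : ℝ) ∈ Set.Icc _ _ from
          ⟨by simpa using speed_nonneg hc.le t _, by simpa using speed_le_one c t _⟩)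
      refine ⟨Kat.act (-(s • a)) v, ?_⟩
      have hs' : speed c t (Kat.act (-(s • a)) v) = s := by linarith
      simp only [φ]
      rw [hs', ← Kat.act_add, add_neg_cancel, Kat.act_zero]
  refine mem_closure_of_tendsto (b := (atTop : Filter ℝ))
    (f := fun t => unitOf (φ t) (hcont t) (hbij t)) (Kat.tendsto_of fun δ hδ => ?_)
    (Eventually.of_forall fun t => ⟨Real.exp (-t), Real.exp_pos _, fun w hw => ?_⟩)
  · have h1 : ∀ᶠ t : ℝ in atTop, Real.exp (-t) < δ / (Real.exp (1 / c) * Real.exp ‖a‖) :=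
      Real.tendsto_exp_neg_atTop_nhds_zero.eventually (gt_mem_nhds (by positivity))
    filter_upwards [h1] with t ht w
    rw [unitOf_ev, tr_ev]
    by_cases hw : Real.exp (1 / c - t) ≤ w.fn 0
    · left
      simp only [φ]
      rw [speed_one hc t w hw, one_smul]
    · right
      have h2 : w.fn 0 * Real.exp ‖a‖ ≤ δ := by
        rw [lt_div_iff₀ (by positivity)] at ht
        have h3 := (not_le.1 hw).le
        rw [sub_eq_add_neg, Real.exp_add] at h3
        nlinarith [mul_le_mul_of_nonneg_right h3 (Real.exp_pos ‖a‖).le]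
      refine ⟨(Kat.act_zero_le _ w).trans (le_trans ?_ h2), (Kat.act_zero_le _ w).trans h2⟩
      refine mul_le_mul_of_nonneg_left (Real.exp_le_exp.2 ?_) (w.nonneg 0)
      rw [norm_smul, Real.norm_eq_abs, abs_of_nonneg (speed_nonneg hc.le t w)]
      nlinarith [speed_le_one c t w, norm_nonneg a]
  · rw [unitOf_ev]
    simp only [φ]
    rw [speed_zero c t w hw, zero_smul, Kat.act_zero]

theorem tr_ne_one {a : E} (ha : a ≠ 0) : tr a ≠ 1 := by
  intro h
  have h1 : (Kat.act a Kat.base).fn a = (Kat.base : Kat E).fn a := by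
    rw [← tr_ev, h]; rfl
  rw [Kat.act_fn, sub_self] at h1
  have h2 : Real.exp (-‖(0 : E)‖) = Real.exp (-‖a‖) := h1
  rw [Real.exp_eq_exp, norm_zero, neg_inj] at h2
  exact ha (norm_eq_zero.1 h2.symm)

end space

/-- The witness: the closure of the homeomorphisms that are the identity near infinity. -/
abbrev Wit : Type := (Hc C(OnePoint ℕ, ℝ)).topologicalClosure

theorem Wit.polish : PolishSpace Wit :=
  (Hc C(OnePoint ℕ, ℝ)).isClosed_topologicalClosure.polishSpace

theorem Wit.nontrivial : Nontrivial Wit :=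
  ⟨⟨⟨tr 1, tr_mem 1⟩, 1, fun h => tr_ne_one one_ne_zero (congrArg Subtype.val h)⟩⟩

theorem Wit.const (f : Wit → ℝ) (C : ℝ) (hC : ∀ x, |f x| ≤ C)
    (huc : ∀ ε : ℝ, 0 < ε → ∃ W ∈ 𝓝 (1 : Wit), ∀ v ∈ W, ∀ x, |f (v * x) - f x| < ε)
    (ht : ¬ ∃ s : ℕ → Wit, ∃ a b : ℝ, a < b ∧ ∀ P N : Finset ℕ, Disjoint P N →
      ∃ x : Wit, (∀ n ∈ P, f (s n * x) < a) ∧ (∀ n ∈ N, b < f (s n * x))) (g : Wit) :
    f g = f 1 := by
  have key : ∀ h : Wit, h.1 ∈ Hc C(OnePoint ℕ, ℝ) → f h = f 1 := by
    intro h hh
    have := fix_of_conj exists_sphere (fun a => (⟨tr a, tr_mem a⟩ : Wit))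
      (fun x y => Subtype.ext (tr_add x y)) (tendsto_subtype_rng.2 tendsto_tr) h (by
        intro W hW
        have h1 : Tendsto (fun y : C(OnePoint ℕ, ℝ) =>
            (⟨tr y, tr_mem y⟩ : Wit) * h * (⟨tr y, tr_mem y⟩ : Wit)⁻¹) (comap norm atTop)
            (𝓝 1) := tendsto_subtype_rng.2 (tendsto_conj hh)
        obtain ⟨T, hT, hsub⟩ := mem_comap.1 (h1 hW)
        obtain ⟨R, hR⟩ := mem_atTop_sets.1 hT
        exact ⟨R, fun y hy => hsub (hR _ hy)⟩) f C hC huc ht 1
    rwa [mul_one] at this
  have : |f g - f 1| ≤ 0 := by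
    refine le_of_forall_pos_le_add fun ε hε => ?_
    obtain ⟨W, hW, hWf⟩ := huc ε hε
    have h1 : (fun h : Wit => g * h⁻¹) ⁻¹' W ∈ 𝓝 g := by
      have hc : Continuous fun h : Wit => g * h⁻¹ := continuous_const.mul continuous_inv
      refine hc.continuousAt.preimage_mem_nhds ?_
      rwa [mul_inv_cancel]
    obtain ⟨T, hT, hsub⟩ := (mem_nhds_subtype _ _ _).1 h1
    obtain ⟨u, huT, hu⟩ := mem_closure_iff_nhds.1 g.2 T hT
    have h2 := hWf _ (hsub (show (⟨u, (Hc _).le_topologicalClosure hu⟩ : Wit) ∈ _ from huT))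
      ⟨u, (Hc _).le_topologicalClosure hu⟩
    rw [inv_mul_cancel_right, key ⟨u, (Hc _).le_topologicalClosure hu⟩ hu] at h2
    linarith
  exact sub_eq_zero.1 (abs_nonpos_iff.1 this)

end Pool.Agent.Lib.MP_937f58_an
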